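import Pool.Agent.Run7.h102.LS.Stm

namespace Run7.h803.LS

open MvPolynomial Run7.h102.LS

theorem coeff_lf {m : ℕ} (S : Finset (Fin m)) (j : Fin m) :
    coeff (Finsupp.single j 1) (lf S) = if j ∈ S then 1 else 0 := by
  classical
  unfold lf
  rw [coeff_sum]
  rw [Finset.sum_congr rfl (g := fun i => if j = i then (1 : K) else 0)]
  · rw [Finset.sum_ite_eq]
  · intro i _
    rw [coeff_X]
    congr 1
    rw [eq_iff_iff, Finsupp.single_left_inj one_ne_zero]
    exact eq_comm

theorem lf_ne {m : ℕ} (S : Finset (Fin m)) (h : S.Nonempty) : lf S ≠ 0 := by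
  obtain ⟨j, hj⟩ := h
  intro h0
  have := coeff_lf S j
  rw [h0, if_pos hj] at this
  simp at this

theorem lf_hom {m : ℕ} (S : Finset (Fin m)) : (lf S).IsHomogeneous 1 :=
  IsHomogeneous.sum _ _ _ (fun i _ => isHomogeneous_X _ i)

theorem lf_deg {m : ℕ} (S : Finset (Fin m)) (h : S.Nonempty) : (lf S).totalDegree = 1 :=
  (lf_hom S).totalDegree (lf_ne S h)

theorem lf_irr {m : ℕ} (S : Finset (Fin m)) (h : S.Nonempty) : Irreducible (lf S) := by
  refine irreducible_of_totalDegree_eq_one (lf_deg S h) ?_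
  intro x hx
  obtain ⟨j, hj⟩ := h
  have := hx (Finsupp.single j 1)
  rw [coeff_lf, if_pos hj] at this
  exact isUnit_of_dvd_one this

theorem lf_dvd {m : ℕ} (S T : Finset (Fin m)) (hS : S.Nonempty) (hT : T.Nonempty)
    (h : lf S ∣ lf T) : S = T := by
  obtain ⟨c, hc⟩ := h
  have hc0 : c ≠ 0 := by
    rintro rfl
    rw [mul_zero] at hc
    exact lf_ne T hT hc
  have hd : (lf T).totalDegree = (lf S).totalDegree + c.totalDegree := by
    rw [hc, totalDegree_mul_of_isDomain (lf_ne S hS) hc0]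
  rw [lf_deg S hS, lf_deg T hT] at hd
  have hz : c.totalDegree = 0 := by omega
  rw [totalDegree_eq_zero_iff_eq_C] at hz
  have hr : coeff 0 c = 1 := by
    have hne : coeff 0 c ≠ 0 := by
      intro h0
      rw [h0, map_zero] at hz
      exact hc0 hz
    revert hne
    generalize coeff 0 c = r
    revert r
    decide
  rw [hr, map_one] at hz
  rw [hz, mul_one] at hc
  ext j
  have h1 := coeff_lf S j
  have h2 := coeff_lf T j
  rw [hc] at h2
  rw [h1] at h2
  by_cases a : j ∈ S <;> by_cases b : j ∈ T <;> simp [a, b] at h2 ⊢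

theorem t_DIV : S_DIV := by
  intro m k F V hV hd
  rw [← Finset.prod_pow]
  refine Finset.prod_dvd_of_isRelPrime ?_ hd
  intro S hS T hT hne
  apply IsRelPrime.pow
  rw [(lf_irr S (hV S hS)).isRelPrime_iff_not_dvd]
  intro h
  exact hne (lf_dvd S T (hV S hS) (hV T hT) h)

end Run7.h803.LS
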